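import Mathlib
import Pool.Agent.K369.FinTower

set_option autoImplicit false

open MvPolynomial Pool.Agent.K369

universe u v

/-- Let `k` be a finite field, or any algebraic extension of a finite field `F`.  Let `Y` be any
closed subscheme of `P^m_k` and let `X → Y` be any bundle of quadrics of dimension `N - 2 ≥ 1` in
the projective bundle over `Y` with homogeneous coordinates of weights `- a i`, with no assumption
on its singularities or its degenerate fibres.  Then `X(k)/R → Y(k)/R` is bijective.

In particular `X(k)/R` is trivial if `Y = P^m` (all conic bundles and quadric bundles over
projective spaces, with any number of degenerate fibres), and more generally if `Y(k)/R` is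
trivial.

The main point, for odd characteristic, is that for every nonzero polynomial `f` over a finite field
there is an explicit rational function `T` with `T 0 = 0` and `T 1 = ∞` such that every closed
point that `T` maps to a zero of `f` other than `0` has even residue degree over its image, so
that the pull-back along `T` kills every class of order two in the Brauer group of the field of
rational functions that is unramified at two given rational points. -/
theorem Pool.Agent.Results.MP_b5db37_ag.FiniteQuadricFibrations.result {F : Type v} [Field F]
    [Finite F] {k : Type u} [Field k] [Algebra F k] [Algebra.IsAlgebraic F k] {m N r : ℕ}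
    (G : Fin r → MvPolynomial (Fin (m + 1)) k) (hG : ∀ j, ∃ e, (G j).IsHomogeneous e)
    (A : Fin N → Fin N → MvPolynomial (Fin (m + 1)) k) (a : Fin N → ℤ) (δ : ℤ) (hN : 3 ≤ N)
    (hA : IsQuadricBundle A a δ) : Function.Bijective (projR G A a) :=
  projR_bijective_of_algebraic (F := F) G hG A a δ hN hA
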