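import Mathlib
import Pool.Agent.K369.Monoid

set_option autoImplicit false

open MvPolynomial Pool.Agent.K369

universe u

/-- Let `k` be a `C₁` field that has a field extension of every prime degree (for instance a
finite field, the function field of a curve over an algebraically closed field of characteristic
zero, or `ℂ((t))`).  Let `X ⊂ P^n_k` be the scheme defined by `r` forms of positive degrees `d j`,
with no smoothness assumption and with `X(k)` not empty.  If for some index `s` with `d s ≥ 2` one
has `∑_{j ≠ s} (d j)² + (d s - 1)² + 1 ≤ n` and `∑_{j ≠ s} C(d j + 2, 3) + C(d s, 3) + d s ≤ n`,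
then `X(k)/R` has exactly one element.

For a hypersurface of degree `d` the conditions read `(d - 1)² + 1 ≤ n` and `C(d, 3) + d ≤ n`; for
`3 ≤ d ≤ 6` the second follows from the first, so that they hold if `n ≥ 10` for quartics, if
`n ≥ 17` for quintics and if `n ≥ 26` for sextics. -/
theorem Pool.Agent.Results.MP_b5db37_ag.MonoidCurves.result {k : Type u} [Field k] (hk : IsC1 k)
    (hext : ∀ ℓ : ℕ, ℓ.Prime →
      ∃ (L : Type u) (_ : Field L) (_ : Algebra k L), Module.finrank k L = ℓ)
    {n r : ℕ} (F : Fin r → MvPolynomial (Fin (n + 1)) k) (d : Fin r → ℕ) (hd : ∀ j, 1 ≤ d j)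
    (hF : ∀ j, (F j).IsHomogeneous (d j)) (s : Fin r) (hs : 2 ≤ d s)
    (hsum1 : ∑ j ∈ Finset.univ.erase s, d j ^ 2 + (d s - 1) ^ 2 + 1 ≤ n)
    (hsum2 : ∑ j ∈ Finset.univ.erase s, (d j + 2).choose 3 + (d s).choose 3 + d s ≤ n)
    (hne : (Pt F).Nonempty) : Nat.card (RClasses F) = 1 := by
  have hN : ∀ e, 1 ≤ e → HasNormic k e := by
    refine hasNormic_of_primes fun ℓ hℓ => ?_
    obtain ⟨L, iL, iA, h⟩ := hext ℓ hℓ
    haveI : FiniteDimensional k L := Module.finite_of_finrank_pos (by rw [h]; exact hℓ.pos)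
    rw [← h]
    exact hasNormic_of_extension L
  exact card_RClasses hF hne fun P Q hP hQ hP0 hQ0 =>
    re_of_two_monoids hk hN F d hd hF s hs (by omega) (by omega) hP hQ hP0 hQ0
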