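import Mathlib
import Pool.Agent.K369.LaurentInst

set_option autoImplicit false

open MvPolynomial Pool.Agent.K369

universe u

/-- Let `k` be a perfect field that contains all roots of unity of order a power of `2` and has a
quadratic extension, and suppose that every finite extension of `k` has at most one quadratic
extension.  For instance `k = K((t))` with `K` algebraically closed of characteristic zero (this is
proved in `Pool.Agent.K369.LaurentInst`), the maximal unramified extension of `ℚ_p` and its
completion for `p` odd, or any perfect field of characteristic `≠ 2` with procyclic absolute Galois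
group, a quadratic extension and all roots of unity of `2`-power order.

Let `Y` be any closed subscheme of `P^m_k` and let `X → Y` be any bundle of quadrics of dimension
`N - 2 ≥ 1` in the projective bundle over `Y` with homogeneous coordinates of weights `- a i`, with
no assumption on its singularities or its degenerate fibres.  Then `X(k)/R → Y(k)/R` is bijective.

In particular `X(k)/R` is trivial if `Y = P^m` (all conic bundles and quadric bundles over
projective spaces), and more generally if `Y(k)/R` is trivial. -/
theorem Pool.Agent.Results.MP_b5db37_ag.QuadricFibrations.result {k : Type u} [Field k]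
    [PerfectField k] (hroots : ∀ n : ℕ, ∃ ζ : k, IsPrimitiveRoot ζ (2 ^ n))
    (hns : ∃ c : k, ¬ IsSquare c) (hone : OneQuadratic k) {m N r : ℕ}
    (G : Fin r → MvPolynomial (Fin (m + 1)) k) (hG : ∀ j, ∃ e, (G j).IsHomogeneous e)
    (A : Fin N → Fin N → MvPolynomial (Fin (m + 1)) k) (a : Fin N → ℤ) (δ : ℤ) (hN : 3 ≤ N)
    (hA : IsQuadricBundle A a δ) : Function.Bijective (projR G A a) :=
  projR_bijective_general hone hroots hns G hG A a δ hN hA

/-- The case `k = K((t))`. -/
theorem Pool.Agent.Results.MP_b5db37_ag.QuadricFibrations.laurent {K : Type u} [Field K]
    [IsAlgClosed K] [CharZero K] {m N r : ℕ}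
    (G : Fin r → MvPolynomial (Fin (m + 1)) (LaurentSeries K))
    (hG : ∀ j, ∃ e, (G j).IsHomogeneous e)
    (A : Fin N → Fin N → MvPolynomial (Fin (m + 1)) (LaurentSeries K)) (a : Fin N → ℤ) (δ : ℤ)
    (hN : 3 ≤ N) (hA : IsQuadricBundle A a δ) : Function.Bijective (projR G A a) := by
  haveI : CharZero (LaurentSeries K) :=
    charZero_of_injective_algebraMap (algebraMap K (LaurentSeries K)).injective
  exact projR_bijective_general oneQuadratic_laurent roots_laurent exists_nonsquare_laurent G hG A
    a δ hN hA
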