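import Mathlib
import Pool.Agent.K369.CharTwoTower

set_option autoImplicit false

open MvPolynomial Pool.Agent.K369

universe u

/-- Let `k` be a perfect field of characteristic two (for instance a perfect `C₁` field of
characteristic two, finite or infinite).  Let `Y` be any closed subscheme of `P^m_k` and let
`X → Y` be any bundle of quadrics of dimension `N - 2 ≥ 1` in the projective bundle over `Y` with
homogeneous coordinates of weights `- a i`, with no assumption on its singularities or its
degenerate fibres.  Then `X(k)/R → Y(k)/R` is bijective.

In particular `X(k)/R` is trivial if `Y = P^m` (all conic bundles and quadric bundles over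
projective spaces), and more generally if `Y(k)/R` is trivial. -/
theorem Pool.Agent.Results.MP_b5db37_ag.QuadricFibrationsCharTwo.result {k : Type u} [Field k]
    [CharP k 2] [PerfectRing k 2] {m N r : ℕ}
    (G : Fin r → MvPolynomial (Fin (m + 1)) k) (hG : ∀ j, ∃ e, (G j).IsHomogeneous e)
    (A : Fin N → Fin N → MvPolynomial (Fin (m + 1)) k) (a : Fin N → ℤ) (δ : ℤ) (hN : 3 ≤ N)
    (hA : IsQuadricBundle A a δ) : Function.Bijective (projR G A a) :=
  projR_bijective_char_two G hG A a δ hN hA
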